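import Pool.Agent.H57N.All2
import Pool.Agent.H57N.K33
import Pool.Agent.H57N.PRISM

/-!
MP_a226eb_gt, Q1: series-parallel parts of arbitrary multigraphs which carry closed geodesic nets on
the round three-sphere.
-/

set_option autoImplicit false

namespace Pool.Agent.Results.MP_a226eb_gt.EvenChains

open Pool.Agent.H57N

/-- `G[X]` is the multigraph which comes from `G` if each edge `e` is replaced by the chain `X e`.
(1) If `G[X]` carries a net then every chain inside of a block has an even number of blocks.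
(2) If `G` carries a net such that on each edge there is a point whose antipode is not on the net,
and the chains `X e` have an even number of blocks, then `G[X]` carries a net if and only if every
chain inside of a block has an even number of blocks.
(3) This applies to `K_4`, to `K_{3,3}` and to the triangular prism. -/
theorem result :
    (∀ (V E : Type) [Fintype E] (src tgt : E → V) (X : E → Ch), (∀ e, src e ≠ tgt e) →
      Carries (ssrc src X) (stgt tgt X) → ∀ e, (X e).Good) ∧
    (∀ (V E : Type) [Fintype E] (src tgt : E → V) (p : V → E4) (v : E → E4) (ℓ : E → ℝ),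
      IsNet src tgt p v ℓ → (∀ x, ∃ e, src e = x ∨ tgt e = x) → (∀ e, src e ≠ tgt e) →
      FreeAntipodes src p v ℓ → ∀ X : E → Ch, (∀ e, Even (X e).len) →
      (Carries (ssrc src X) (stgt tgt X) ↔ ∀ e, (X e).Good)) ∧
    (∀ X : Fin 6 → Ch, (∀ e, Even (X e).len) →
      (Carries (ssrc k4src X) (stgt k4tgt X) ↔ ∀ e, (X e).Good)) ∧
    (∀ X : Fin 9 → Ch, (∀ e, Even (X e).len) →
      (Carries (ssrc k33src X) (stgt k33tgt X) ↔ ∀ e, (X e).Good)) ∧
    (∀ X : Fin 9 → Ch, (∀ e, Even (X e).len) →
      (Carries (ssrc prsrc X) (stgt prtgt X) ↔ ∀ e, (X e).Good)) := by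
  have h2 : ∀ (V E : Type) [Fintype E] (src tgt : E → V) (p : V → E4) (v : E → E4) (ℓ : E → ℝ),
      IsNet src tgt p v ℓ → (∀ x, ∃ e, src e = x ∨ tgt e = x) → (∀ e, src e ≠ tgt e) →
      FreeAntipodes src p v ℓ → ∀ X : E → Ch, (∀ e, Even (X e).len) →
      (Carries (ssrc src X) (stgt tgt X) ↔ ∀ e, (X e).Good) :=
    fun V E _ src tgt p v ℓ hn hi hl hf X hX =>
      ⟨snec V E src tgt X hl, fun hg => ssub V E src tgt p v ℓ hn hi hf X fun e => ⟨hg e, hX e⟩⟩
  refine ⟨snec, h2, ?_, ?_, ?_⟩
  · intro X hX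
    obtain ⟨p, v, ℓ, hn, hf⟩ := t_K4
    exact h2 _ _ k4src k4tgt p v ℓ hn (by decide) (by decide) hf X hX
  · intro X hX
    obtain ⟨p, v, ℓ, hn, hf⟩ := t_K33
    exact h2 _ _ k33src k33tgt p v ℓ hn (by decide) (by decide) hf X hX
  · intro X hX
    obtain ⟨p, v, ℓ, hn, hf⟩ := t_PRISM
    exact h2 _ _ prsrc prtgt p v ℓ hn (by decide) (by decide) hf X hX

end Pool.Agent.Results.MP_a226eb_gt.EvenChains
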