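import Pool.Agent.H57N.All
import Pool.Agent.H57N.CUB
import Pool.Agent.H57N.CONN

/-!
MP_a226eb_gt, Q1, for all series-parallel cubic multigraphs `Θ(A,B,C)`: the round three-sphere
carries a closed geodesic net modelled on `Θ(A,B,C)` if and only if every chain of blocks in it has
an even number of blocks.
-/

set_option autoImplicit false

namespace Pool.Agent.Results.MP_a226eb_gt.SeriesParallel

open Pool.Agent.H57N

open scoped Classical in
/-- `Θ(A,B,C)` is connected and cubic, and it carries a closed geodesic net on the round three-sphere if and only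
if each of the chains `A`, `B`, `C`, and each chain inside of a block, has an even number of
blocks. -/
theorem result : ∀ A B C : Ch,
    (∀ x, Relation.ReflTransGen (Join (tsrc A B C id) (ttgt A B C id)) (.inl false) x) ∧
    (∀ x, (∑ e with tsrc A B C id e = x, 1) + (∑ e with ttgt A B C id e = x, 1) = 3) ∧
    (Carries (tsrc A B C id) (ttgt A B C id) ↔
      (A.Good ∧ Even A.len) ∧ (B.Good ∧ Even B.len) ∧ (C.Good ∧ Even C.len)) :=
  fun A B C => ⟨t_CON A B C, t_CUB A B C, series_parallel A B C⟩

end Pool.Agent.Results.MP_a226eb_gt.SeriesParallel
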