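import Pool.Agent.H57N.CutAll

/-!
MP_a226eb_gt, Q1: what cuts with at most three edges look like in a closed geodesic net on the round
three-sphere.
-/

set_option autoImplicit false

namespace Pool.Agent.Results.MP_a226eb_gt.SmallCuts

open Pool.Agent.H57N

/-- Let a closed geodesic net on the round three-sphere be modelled on a finite multigraph and `X` a
set of vertices. (1) The fluxes of the edges which leave `X` and of those which enter `X` have the
same sum. (2) It is impossible that exactly one edge joins `X` to its complement. (3) If exactly two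
edges do, they lie on the same great circle and pass it in the same sense, one out of `X` and the
other into `X`. (4) If exactly three edges do, their great circles pass through a common point, and
there the three unit tangent vectors which point out of `X` sum to zero. -/
theorem result (V E : Type) [Fintype V] [Fintype E] [DecidableEq V] (src tgt : E → V)
    (p : V → E4) (v : E → E4) (ℓ : E → ℝ) (h : IsNet src tgt p v ℓ) (X : Finset V) :
    ((∑ e with src e ∈ X ∧ tgt e ∉ X, fl (p (src e)) (v e)) =
      ∑ e with src e ∉ X ∧ tgt e ∈ X, fl (p (src e)) (v e)) ∧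
    (∀ e, ¬ ∀ f, Cross src tgt X f ↔ f = e) ∧
    (∀ e e', e ≠ e' → (∀ f, Cross src tgt X f ↔ f = e ∨ f = e') →
      ∃ θ : ℝ, arc (p (src e)) (v e) θ = p (src e') ∧
        sgn src X e • vel (p (src e)) (v e) θ + sgn src X e' • v e' = 0) ∧
    (∀ e1 e2 e3, e1 ≠ e2 → e1 ≠ e3 → e2 ≠ e3 →
      (∀ f, Cross src tgt X f ↔ f = e1 ∨ f = e2 ∨ f = e3) →
      ∃ (z : E4) (θ1 θ2 θ3 : ℝ), arc (p (src e1)) (v e1) θ1 = z ∧
        arc (p (src e2)) (v e2) θ2 = z ∧ arc (p (src e3)) (v e3) θ3 = z ∧
        sgn src X e1 • vel (p (src e1)) (v e1) θ1 + sgn src X e2 • vel (p (src e2)) (v e2) θ2 +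
          sgn src X e3 • vel (p (src e3)) (v e3) θ3 = 0) :=
  ⟨t_CUT V E src tgt p v ℓ h X, cut1 h X, cut2 h X, cut3 h X⟩

end Pool.Agent.Results.MP_a226eb_gt.SmallCuts
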