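import Pool.Agent.H57N.All2
import Pool.Agent.H57N.CutAll
import Pool.Agent.H57N.K33
import Pool.Agent.H57N.PRISM
import Pool.Agent.H57N.KD

/-!
MP_a226eb_gt, Q1, for all cubic multigraphs with at most six vertices.
-/

set_option autoImplicit false

namespace Pool.Agent.Results.MP_a226eb_gt.UpToSixVertices

open Pool.Agent.H57N

/-- Closed geodesic nets on the round three-sphere exist for the theta graph, `K_4`, `K_{3,3}`, the
prism, `K_4` with a double edge inserted into one edge, and the ring of three double edges, and do not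
exist for the ring of two double edges, for the theta graph with double edges inserted into two of
its edges, and for multigraphs with a bridge. -/
theorem result :
    Carries (tsrc .edge .edge .edge id) (ttgt .edge .edge .edge id) ∧
    Carries k4src k4tgt ∧
    ¬ Carries (tsrc .edge .edge (.cons .edge .edge .edge) id)
      (ttgt .edge .edge (.cons .edge .edge .edge) id) ∧
    Carries k33src k33tgt ∧
    Carries prsrc prtgt ∧
    Carries kdsrc kdtgt ∧
    Carries (tsrc .edge .edge (.cons .edge .edge (.cons .edge .edge .edge)) id)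
      (ttgt .edge .edge (.cons .edge .edge (.cons .edge .edge .edge)) id) ∧
    ¬ Carries (tsrc .edge (.cons .edge .edge .edge) (.cons .edge .edge .edge) id)
      (ttgt .edge (.cons .edge .edge .edge) (.cons .edge .edge .edge) id) ∧
    ∀ (V E : Type) [Fintype V] [Fintype E] [DecidableEq V] (src tgt : E → V),
      (∃ (X : Finset V) (e : E), ∀ f, Cross src tgt X f ↔ f = e) → ¬ Carries src tgt := by
  refine ⟨?_, ?_, ?_, ?_, ?_, t_KD, ?_, ?_, ?_⟩
  · exact (series_parallel _ _ _).2 (by simp [Ch.Good, Ch.len])
  · obtain ⟨p, v, ℓ, h, _⟩ := t_K4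
    exact ⟨p, v, ℓ, h⟩
  · intro h
    have := (series_parallel _ _ _).1 h
    simp [Ch.Good, Ch.len] at this
  · obtain ⟨p, v, ℓ, h, _⟩ := t_K33
    exact ⟨p, v, ℓ, h⟩
  · obtain ⟨p, v, ℓ, h, _⟩ := t_PRISM
    exact ⟨p, v, ℓ, h⟩
  · refine (series_parallel _ _ _).2 ?_
    simp only [Ch.Good, Ch.len]
    decide
  · intro h
    have := (series_parallel _ _ _).1 h
    simp [Ch.Good, Ch.len] at this
  · rintro V E _ _ _ src tgt ⟨X, e, hc⟩ ⟨p, v, ℓ, h⟩
    exact cut1 h X e hc

end Pool.Agent.Results.MP_a226eb_gt.UpToSixVertices
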